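import Pool.Agent.H44.V0P.TwC
import Pool.Agent.H16.STR.Lit
import Pool.Agent.H24.R149.Nn

/-!
# The near half of the star: the orders away from the top one

`oj_le`, `oj_ge`: the pair of both targets. `near_lo`: the orders `i ≤ s - 1` given the near jets and
a record. `near_hi`: the orders above the slope. `near_nat`: natural digits of the orders `i ≤ s`.
`ldp_che`: the charts of a window as labels (`f = 0`).
-/

set_option autoImplicit false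

namespace Pool.STR62

open Finset Real MvPolynomial
open Pool.Agent.H49.Ent Pool.Agent.H32.Dense Pool.STK Pool.KA Pool.KSAT Pool.K2S Pool.PB Pool.GEN
open Pool.S6C Pool.RCD Pool.LA91 Pool.AVG96 Pool.V0F Pool.V0T Pool.D2R Pool.NVT16
open Pool.AVG57 (jet2 upw upw_slam)
open Pool.AJW (CfB)
open Pool.V0Q (LDP)
open Pool.T462 (GNs HNs)
open Pool.TW44 (ChW ChE Lns lin_of lv_of ch_more ch_fewer p5_low p5_high)
open Pool.STR16 (oJ)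

variable {m : ℕ}

/-- The pair from both targets. -/
theorem oj_le {J : ℕ} {F : Fam m J} {p : F.Ω → ℝ} (hp : IsLaw p) (c : ℕ → Fin m) (k a i : ℕ)
    (H : LnT F → ℕ → MvPolynomial (Option (Fin m)) ℝ) (N : ℕ → ℝ) {γ : Type} (Y : F.Ω → γ)
    {e : ℝ} (h : ∀ l, k ≤ l → l ≤ k + 1 → CH p (fun ω => ⌊(2 : ℝ) ^ (N (l - k) * J) *
      ojet F (c l) i (H (slam F a ω) l) ω⌋) Y ≤ e) : CH p (oJ c k a i H N) Y ≤ 2 * e := by
  have h0 := h k le_rfl (Nat.le_succ k)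
  have h1 := h (k + 1) (Nat.le_succ k) le_rfl
  rw [Nat.sub_self] at h0
  rw [Nat.add_sub_cancel_left] at h1
  have h2 := CH_subadd hp.nonneg (fun ω => ⌊(2 : ℝ) ^ (N 0 * J) *
      ojet F (c k) i (H (slam F a ω) k) ω⌋) (fun ω => ⌊(2 : ℝ) ^ (N 1 * J) *
      ojet F (c (k + 1)) i (H (slam F a ω) (k + 1)) ω⌋) Y
  have h3 : CH p (oJ c k a i H N) Y ≤ CH p (fun ω => (⌊(2 : ℝ) ^ (N 0 * J) *
      ojet F (c k) i (H (slam F a ω) k) ω⌋, ⌊(2 : ℝ) ^ (N 1 * J) *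
      ojet F (c (k + 1)) i (H (slam F a ω) (k + 1)) ω⌋)) Y := by
    refine CH_mono_left hp.nonneg fun ω ν _ _ e => ?_
    have e1 := Prod.ext_iff.mp (Prod.ext_iff.mp e).1
    funext l
    have hl : l = 0 ∨ l = 1 := by omega
    rcases hl with rfl | rfl
    · exact e1.1
    · exact e1.2
  linarith

/-- One target from the pair. -/
theorem oj_ge {J : ℕ} {F : Fam m J} {p : F.Ω → ℝ} (hp : IsLaw p) (c : ℕ → Fin m) (k a i : ℕ)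
    (H : LnT F → ℕ → MvPolynomial (Option (Fin m)) ℝ) (N : ℕ → ℝ) {γ : Type} (Y : F.Ω → γ)
    {l : ℕ} (h1 : k ≤ l) (h2 : l ≤ k + 1) : CH p (fun ω => ⌊(2 : ℝ) ^ (N (l - k) * J) *
      ojet F (c l) i (H (slam F a ω) l) ω⌋) Y ≤ CH p (oJ c k a i H N) Y := by
  refine CH_mono_left hp.nonneg fun ω ν _ _ e => ?_
  have e1 : oJ c k a i H N ω = oJ c k a i H N ν := (Prod.ext_iff.mp e).1
  obtain ⟨d, rfl⟩ : ∃ d, l = k + d := ⟨l - k, by omega⟩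
  have e2 := congrFun e1 (⟨d, by omega⟩ : Fin 2)
  rw [Nat.add_sub_cancel_left]
  exact e2

/-- The jets depend on the labels of the places below `k` only. -/
theorem jet2_congr {J : ℕ} {F : Fam m J} {c : ℕ → Fin m} {a k : ℕ}
    {H H' : LnT F → ℕ → MvPolynomial (Option (Fin m)) ℝ} {N : ℕ → ℕ → ℝ}
    (h : ∀ ω, ∀ l < k, H (slam F a ω) l = H' (slam F a ω) l) :
    jet2 F c a H 0 k N = jet2 F c a H' 0 k N := by
  funext ω l j'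
  unfold jet2
  by_cases h1 : 0 ≤ l ∧ l < k ∧ j' ≤ 1
  · rw [if_pos h1, if_pos h1, h ω l h1.2.1]
  · rw [if_neg h1, if_neg h1]

/-- **Near, the orders below the top one.** -/
theorem near_lo (m D k i : ℕ) : ∃ C : ℕ, 1 ≤ C ∧ ∀ {S : PCl m} {c : ℕ → Fin m}
    {sn : ℕ → ℝ → ℝ} {G : Set ℝ} {b o φ s : ℝ} {al : ℕ → ℝ} {Dr N M : ℕ} {C₀ a Eb ηm : ℝ}
    {ow η σ : ℕ → ℝ} {lv bb : ℕ → ℕ → ℝ} {f : ℕ → ℕ} {n : ℕ}, LadT S c k 1 sn G b o φ →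
    Lns k sn G b o φ s al → (i : ℝ) ≤ s - 1 → ChW k sn G b o φ N C₀ ηm ow lv f n →
    C * ((s + 3) * φ) ≤ sn (k + 1) b → ∀ {t l : ℕ} {w u ψ ox ε : ℝ},
    t ≤ n → ow (f t) = w → w + u ≤ ow (f n) + φ → k ≤ l → l ≤ k + 1 → 0 < u →
    C * ((s + 3) * φ) ≤ ψ → C * ((s + 3) * φ) ≤ u →
    u + ψ ≤ w - b → 2 * u + ψ ≤ 1 - w → w + u - φ ≤ ox → ox ≤ 1 → 0 < ε →
    Bas S (fun J F A => ∀ {κ : ℝ} {z : ℕ → ℕ → ℕ} {g₀ : ℕ → ℕ → ℕ}
      {Gc : ℕ → PtT F → ℕ → MvPolynomial (Option (Fin m)) ℝ}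
      {H : ℕ → LnT F → ℕ → MvPolynomial (Option (Fin m)) ℝ},
      ChE F c k D Dr N M C₀ a Eb ηm ow η σ lv bb f n κ z A g₀ Gc H →
      ∀ Hj : LnT F → ℕ → MvPolynomial (Option (Fin m)) ℝ,
      (∀ ω, ∀ l < k, Hj (slam F ⌊w * J⌋₊ ω) l = H (f 0) (slam F ⌊b * J⌋₊ ω) l) →
      CH (Pool.Agent.H49.Ent.cond F.p A True)
        (fun ω => ⌊(2 : ℝ) ^ ((sn l w + u - i * w) * J) * ojet F (c l) i
          (HNs c H k (f 0) (f t) ⌊b * J⌋₊ ⌊w * J⌋₊ (slam F ⌊w * J⌋₊ ω) l) ω⌋)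
        (fun ω => (jet2 F c ⌊w * J⌋₊ Hj 0 k (fun l' j' => sn l' w + (u + ψ) - (j' : ℝ) * w) ω,
          (cR F A ox ω, F.W ω))) ≤ (C * ((s + 3) * φ) + ε) * J) := by
  obtain ⟨C₁, hC₁, hlo⟩ := p5_low m D k i
  refine ⟨C₁ + 1, by omega, ?_⟩
  intro S c sn G b o φ s al Dr N M C₀ a Eb ηm ow η σ lv bb f n L hl hs1 hw hlev t l w u ψ ox ε
    ht hwt hwn hkl hlk hu hCψ hCu hbu h1u hox hox1 hε
  have hφ := L.φ0
  have hi0 : (0 : ℝ) ≤ i := Nat.cast_nonneg i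
  have hs0 : 0 ≤ s := by linarith
  obtain ⟨y, hy⟩ : ∃ y : ℝ, y = (s + 3) * φ := ⟨_, rfl⟩
  have hsφ : 0 ≤ s * φ := mul_nonneg hs0 hφ.le
  have hy3 : y = s * φ + 3 * φ := by rw [hy]; ring
  have hy0 : 0 < y := by linarith
  rw [← hy] at hlev hCψ hCu ⊢
  have hCe : ((C₁ + 1 : ℕ) : ℝ) * y = C₁ * y + y := by
    push_cast
    ring
  have hC1y : 0 ≤ (C₁ : ℝ) * y := by positivity
  rw [hCe] at hlev hCψ hCu ⊢
  have hbw : b ≤ w := by rw [← hwt]; exact hw.bo ht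
  have hψ0 : 0 ≤ ψ := by linarith
  have hsi : 1 ≤ s - i := by linarith
  obtain ⟨xs, hxs⟩ : ∃ xs : ℝ, xs = w + (u - φ) / (s - i) := ⟨_, rfl⟩
  have hφu : φ ≤ u := by linarith
  have e1 : (s - i) * (xs - w) = u - φ := by
    rw [hxs, add_sub_cancel_left, mul_div_cancel₀ _ (by linarith : s - (i : ℝ) ≠ 0)]
  have hxw : w ≤ xs := by
    rw [hxs]
    have := div_nonneg (sub_nonneg.2 hφu) (by linarith : 0 ≤ s - (i : ℝ))
    linarith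
  have hxu : xs ≤ w + u - φ := by
    have : 1 * (xs - w) ≤ (s - i) * (xs - w) := mul_le_mul_of_nonneg_right hsi (by linarith)
    linarith
  obtain ⟨t', ht', h1, h2⟩ := hw.near hφ.le (x := xs) (by linarith) n le_rfl (by linarith)
  obtain ⟨t₂, ht₂⟩ : ∃ t₂, t₂ = max t t' := ⟨_, rfl⟩
  have ht2n : t₂ ≤ n := by rw [ht₂]; exact max_le ht ht'
  have htt : t ≤ t₂ := by rw [ht₂]; exact le_max_left _ _
  have ht't : t' ≤ t₂ := by rw [ht₂]; exact le_max_right _ _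
  have k1 : ow (f t₂) ≤ xs := by
    rcases max_cases t t' with h3 | h3
    · rw [ht₂, h3.1, hwt]
      exact hxw
    · rw [ht₂, h3.1]
      exact h1
  have k2 : xs ≤ ow (f t₂) + φ := by
    have := hw.mo t₂ ht2n t' ht't
    linarith
  have k0 : w ≤ ow (f t₂) := by
    have := hw.mo t₂ ht2n t htt
    rwa [hwt] at this
  obtain ⟨x₂, hx₂⟩ : ∃ x₂, x₂ = ow (f t₂) := ⟨_, rfl⟩
  have k3 := abs_le.1 (lin_of hl hkl hlk (hw.oG t ht) (hw.oG t₂ ht2n) (hw.bo ht) (hw.oo t ht)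
    (hw.bo ht2n) (hw.oo t₂ ht2n))
  rw [hwt, ← hx₂] at k3
  rw [← hx₂] at k0 k1 k2
  have k4 : (s - i) * (x₂ - w) ≤ u - φ := by
    rw [← e1]
    exact mul_le_mul_of_nonneg_left (by linarith) (by linarith)
  have k5 : u - φ - s * φ ≤ (s - i) * (x₂ - w) := by
    have h3 : (s - i) * (xs - φ - w) ≤ (s - i) * (x₂ - w) :=
      mul_le_mul_of_nonneg_left (by linarith) (by linarith)
    have h4 : (s - i) * (xs - φ - w) = (s - i) * (xs - w) - (s - i) * φ := by ring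
    have h5 : (s - i) * φ ≤ s * φ := mul_le_mul_of_nonneg_right (by linarith) hφ.le
    linarith
  obtain ⟨ν, hν⟩ : ∃ ν : ℝ, ν = sn l w + u - i * w - (C₁ * y + y) := ⟨_, rfl⟩
  have e2 : (s - i) * (x₂ - w) = s * (x₂ - w) - (i * x₂ - i * w) := by ring
  have h3 := hlo (Dr := Dr) (M := M) (a := a) (Eb := Eb) (η := η) (σ := σ) (bb := bb) L hl hs0 hw
    (by rw [← hy]; linarith) (t₁ := t) (t₂ := t₂) (l := l) (ν := ν) (ox := ox) (R := u + ψ)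
    (w' := w) (Nf := fun l' j' => sn l' w + (u + ψ) - (j' : ℝ) * w) (ε := ε / 2) htt ht2n hkl
    hlk (by rw [← hx₂]; linarith) hox1 (by rw [← hy, ← hx₂, hν]; linarith [k3.1]) (by
      rw [← hy, ← hx₂, hwt, max_eq_right hsi]
      linarith) (by rw [hwt]; linarith) (by rw [← hx₂]; linarith) (fun l' _ j' _ => by rw [hwt])
    (by positivity)
  obtain ⟨J₁, hJ₁⟩ := exists_nat_ge (Real.log 5 / (ε / 2))
  refine Bas.mono J₁ (h3.and (pos_bas L.pos)) ?_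
  rintro J hJ F A ⟨h, hA⟩ κ z g₀ Gc H hE Hj hHj
  have hJ0 : (0 : ℝ) ≤ J := Nat.cast_nonneg J
  have hJl : Real.log 5 ≤ ε / 2 * J := by
    have h3 : (J₁ : ℝ) ≤ J := by exact_mod_cast hJ
    have h4 := hJ₁.trans h3
    rw [div_le_iff₀ (by positivity)] at h4
    linarith
  have hcl := isLaw_cond F.isLaw hA
  have h4 := h hE Hj hHj
  rw [hwt, hw.ob] at h4
  refine (ch_more hcl (fun ω => ojet F (c l) i
    (HNs c H k (f 0) (f t) ⌊b * J⌋₊ ⌊w * J⌋₊ (slam F ⌊w * J⌋₊ ω) l) ω) _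
    (a := ν * J) (b := (sn l w + u - i * w) * J)
    (mul_le_mul_of_nonneg_right (by rw [hν]; linarith) hJ0)).trans ?_
  have h5 : ((sn l w + u - i * w) * (J : ℝ) - ν * J) * Real.log 2 ≤ (C₁ * y + y) * J := by
    have h6 : (sn l w + u - i * w) * (J : ℝ) - ν * J = (C₁ * y + y) * J := by
      rw [hν]
      ring
    rw [h6]
    have h7 : Real.log 2 ≤ 1 := by
      have := Real.log_two_lt_d9
      linarith
    have h8 : 0 ≤ (C₁ * y + y) * (J : ℝ) := by positivity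
    nlinarith
  nlinarith

/-- **Near, the orders above the slope.** -/
theorem near_hi (m D k i : ℕ) : ∃ C : ℕ, 1 ≤ C ∧ ∀ {S : PCl m} {c : ℕ → Fin m}
    {sn : ℕ → ℝ → ℝ} {G : Set ℝ} {b o φ s : ℝ} {al : ℕ → ℝ} {Dr N M : ℕ} {C₀ a Eb ηm : ℝ}
    {ow η σ : ℕ → ℝ} {lv bb : ℕ → ℕ → ℝ} {f : ℕ → ℕ} {n : ℕ}, LadT S c k 1 sn G b o φ →
    Lns k sn G b o φ s al → 1 ≤ s → s < i → ChW k sn G b o φ N C₀ ηm ow lv f n →
    C * ((s + 3) * φ) ≤ sn (k + 1) b → ∀ {t l : ℕ} {w u ψ μ ox ε : ℝ},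
    t ≤ n → ow (f t) = w → k ≤ l → l ≤ k + 1 → 0 < u →
    C * ((s + 3) * φ) ≤ ψ → μ ≤ min 1 (i - s) →
    2 * (u + ψ) ≤ μ * (w - b) → u + ψ ≤ 1 - w → w ≤ ox → ox ≤ 1 → 0 < ε →
    Bas S (fun J F A => ∀ {κ : ℝ} {z : ℕ → ℕ → ℕ} {g₀ : ℕ → ℕ → ℕ}
      {Gc : ℕ → PtT F → ℕ → MvPolynomial (Option (Fin m)) ℝ}
      {H : ℕ → LnT F → ℕ → MvPolynomial (Option (Fin m)) ℝ},
      ChE F c k D Dr N M C₀ a Eb ηm ow η σ lv bb f n κ z A g₀ Gc H →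
      ∀ Hj : LnT F → ℕ → MvPolynomial (Option (Fin m)) ℝ,
      (∀ ω, ∀ l < k, Hj (slam F ⌊w * J⌋₊ ω) l = H (f 0) (slam F ⌊b * J⌋₊ ω) l) →
      CH (Pool.Agent.H49.Ent.cond F.p A True)
        (fun ω => ⌊(2 : ℝ) ^ ((sn l w + u - i * w) * J) * ojet F (c l) i
          (HNs c H k (f 0) (f t) ⌊b * J⌋₊ ⌊w * J⌋₊ (slam F ⌊w * J⌋₊ ω) l) ω⌋)
        (fun ω => (jet2 F c ⌊w * J⌋₊ Hj 0 k (fun l' j' => sn l' w + (u + ψ) - (j' : ℝ) * w) ω,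
          (cR F A ox ω, F.W ω))) ≤ ε * J) := by
  obtain ⟨C₂, hC₂, hhi⟩ := p5_high m D k i
  refine ⟨C₂, hC₂, ?_⟩
  intro S c sn G b o φ s al Dr N M C₀ a Eb ηm ow η σ lv bb f n L hl hs his hw hlev t l w u ψ μ ox ε
    ht hwt hkl hlk hu hCψ hμ hbu h1u hox hox1 hε
  have hbw : b ≤ w := by rw [← hwt]; exact hw.bo ht
  have h1 := hhi (Dr := Dr) (M := M) (a := a) (Eb := Eb) (η := η) (σ := σ) (bb := bb) L hl hs
    his hw hlev (t := t) (l := l) (ν := sn l w + u - i * w) (ox := ox)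
    (X := u) (R := u + ψ) (w' := w) (Nf := fun l' j' => sn l' w + (u + ψ) - (j' : ℝ) * w) ht hkl
    hlk (by rw [hwt]; exact hox) hox1 hu.le (by rw [hwt]; linarith) (by linarith) (by
      rw [hwt]
      have h2 := mul_le_mul_of_nonneg_right hμ (by linarith : 0 ≤ w - b)
      linarith) (by rw [hwt]; exact h1u) (fun l' _ j' _ => by rw [hwt]) hε
  refine Bas.mono 0 h1 ?_
  rintro J - F A h κ z g₀ Gc H hE Hj hHj
  have h2 := h hE Hj hHj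
  rw [hwt, hw.ob] at h2
  exact h2

/-- **Natural digits** of the orders up to the slope. -/
theorem near_nat (m D k i : ℕ) : ∃ C : ℕ, 1 ≤ C ∧ ∀ {S : PCl m} {c : ℕ → Fin m}
    {sn : ℕ → ℝ → ℝ} {G : Set ℝ} {b o φ s : ℝ} {al : ℕ → ℝ} {Dr N M : ℕ} {C₀ a Eb ηm : ℝ}
    {ow η σ : ℕ → ℝ} {lv bb : ℕ → ℕ → ℝ} {f : ℕ → ℕ} {n : ℕ}, LadT S c k 1 sn G b o φ →
    Lns k sn G b o φ s al → 0 ≤ s → ChW k sn G b o φ N C₀ ηm ow lv f n →
    C * ((s + 3) * φ) ≤ sn (k + 1) b → ∀ {t l : ℕ} {w ψ ox ε : ℝ},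
    t ≤ n → ow (f t) = w → k ≤ l → l ≤ k + 1 →
    C * ((s + 3) * φ) ≤ ψ → ψ ≤ w - b → ψ ≤ 1 - w → w ≤ ox → ox ≤ 1 → 0 < ε →
    Bas S (fun J F A => ∀ {κ : ℝ} {z : ℕ → ℕ → ℕ} {g₀ : ℕ → ℕ → ℕ}
      {Gc : ℕ → PtT F → ℕ → MvPolynomial (Option (Fin m)) ℝ}
      {H : ℕ → LnT F → ℕ → MvPolynomial (Option (Fin m)) ℝ},
      ChE F c k D Dr N M C₀ a Eb ηm ow η σ lv bb f n κ z A g₀ Gc H →
      ∀ Hj : LnT F → ℕ → MvPolynomial (Option (Fin m)) ℝ,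
      (∀ ω, ∀ l < k, Hj (slam F ⌊w * J⌋₊ ω) l = H (f 0) (slam F ⌊b * J⌋₊ ω) l) →
      CH (Pool.Agent.H49.Ent.cond F.p A True)
        (fun ω => ⌊(2 : ℝ) ^ ((sn l w - i * w) * J) * ojet F (c l) i
          (HNs c H k (f 0) (f t) ⌊b * J⌋₊ ⌊w * J⌋₊ (slam F ⌊w * J⌋₊ ω) l) ω⌋)
        (fun ω => (jet2 F c ⌊w * J⌋₊ Hj 0 k (fun l' j' => sn l' w + ψ - (j' : ℝ) * w) ω,
          (cR F A ox ω, F.W ω))) ≤ (C * ((s + 3) * φ) + ε) * J) := by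
  obtain ⟨C₁, hC₁, hlo⟩ := p5_low m D k i
  refine ⟨C₁, hC₁, ?_⟩
  intro S c sn G b o φ s al Dr N M C₀ a Eb ηm ow η σ lv bb f n L hl hs0 hw hlev t l w ψ ox ε
    ht hwt hkl hlk hCψ hbu h1u hox hox1 hε
  have hφ := L.φ0
  obtain ⟨y, hy⟩ : ∃ y : ℝ, y = (s + 3) * φ := ⟨_, rfl⟩
  have hsφ : 0 ≤ s * φ := mul_nonneg hs0 hφ.le
  have hy0 : 0 < y := by rw [hy]; nlinarith
  rw [← hy] at hlev hCψ ⊢
  have hC1y : 0 ≤ (C₁ : ℝ) * y := by positivity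
  obtain ⟨ν, hν⟩ : ∃ ν : ℝ, ν = sn l w - i * w - C₁ * y := ⟨_, rfl⟩
  have h3 := hlo (Dr := Dr) (M := M) (a := a) (Eb := Eb) (η := η) (σ := σ) (bb := bb) L hl hs0 hw
    (by rw [← hy]; linarith) (t₁ := t) (t₂ := t) (l := l) (ν := ν) (ox := ox) (R := ψ)
    (w' := w) (Nf := fun l' j' => sn l' w + ψ - (j' : ℝ) * w) (ε := ε / 2) le_rfl ht hkl
    hlk (by rw [hwt]; exact hox) hox1 (by rw [← hy, hwt, hν]; linarith) (by
      rw [← hy, sub_self, mul_zero]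
      linarith) (by rw [hwt]; exact hbu) (by rw [hwt]; exact h1u) (fun l' _ j' _ => by rw [hwt])
    (by positivity)
  obtain ⟨J₁, hJ₁⟩ := exists_nat_ge (Real.log 5 / (ε / 2))
  refine Bas.mono J₁ (h3.and (pos_bas L.pos)) ?_
  rintro J hJ F A ⟨h, hA⟩ κ z g₀ Gc H hE Hj hHj
  have hJ0 : (0 : ℝ) ≤ J := Nat.cast_nonneg J
  have hJl : Real.log 5 ≤ ε / 2 * J := by
    have h3 : (J₁ : ℝ) ≤ J := by exact_mod_cast hJ
    have h4 := hJ₁.trans h3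
    rw [div_le_iff₀ (by positivity)] at h4
    linarith
  have hcl := isLaw_cond F.isLaw hA
  have h4 := h hE Hj hHj
  rw [hwt, hw.ob] at h4
  refine (ch_more hcl (fun ω => ojet F (c l) i
    (HNs c H k (f 0) (f t) ⌊b * J⌋₊ ⌊w * J⌋₊ (slam F ⌊w * J⌋₊ ω) l) ω) _
    (a := ν * J) (b := (sn l w - i * w) * J)
    (mul_le_mul_of_nonneg_right (by rw [hν]; linarith) hJ0)).trans ?_
  have h5 : ((sn l w - i * w) * (J : ℝ) - ν * J) * Real.log 2 ≤ (C₁ * y) * J := by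
    have h6 : (sn l w - i * w) * (J : ℝ) - ν * J = (C₁ * y) * J := by
      rw [hν]
      ring
    rw [h6]
    have h7 : Real.log 2 ≤ 1 := by
      have := Real.log_two_lt_d9
      linarith
    have h8 : 0 ≤ (C₁ * y) * (J : ℝ) := by positivity
    nlinarith
  nlinarith

/-- **The charts of a window as labels** of the place `k`. -/
theorem ldp_che {J : ℕ} {F : Fam m J} {c : ℕ → Fin m} {k D Dr N M : ℕ} {C₀ a Eb ηm : ℝ}
    {ow η σ : ℕ → ℝ} {lv bb : ℕ → ℕ → ℝ} {f : ℕ → ℕ} {n : ℕ} {κ : ℝ} {z : ℕ → ℕ → ℕ}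
    {A : F.Ω → Prop} {g₀ : ℕ → ℕ → ℕ} {G : ℕ → PtT F → ℕ → MvPolynomial (Option (Fin m)) ℝ}
    {H : ℕ → LnT F → ℕ → MvPolynomial (Option (Fin m)) ℝ} {sn : ℕ → ℝ → ℝ} {Gs : Set ℝ}
    {b o φ : ℝ} (h : ChE F c k D Dr N M C₀ a Eb ηm ow η σ lv bb f n κ z A g₀ G H)
    (hw : ChW k sn Gs b o φ N C₀ ηm ow lv f n) {t : ℕ} (ht : t ≤ n) {w : ℝ} (hwt : ow (f t) = w)
    (hw1 : w ≤ 1) :
    LDP F c k 0 D b w φ 1 sn A (H (f 0)) (fhT H (H (f t)) (f 0) k ⌊b * J⌋₊ ⌊w * J⌋₊) := by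
  have hbw : b ≤ w := by rw [← hwt]; exact hw.bo ht
  have hJ0 : (0 : ℝ) ≤ J := Nat.cast_nonneg J
  have h0 := lv_of h hw (Nat.zero_le n)
  have h1 := lv_of h hw ht
  rw [hw.ob] at h0
  rw [hwt] at h1
  have e1 : ∀ l, k ≤ l → l ≤ k + 0 → l = k := fun l h1 h2 => by omega
  refine ⟨fun l hl => h0.lb l (by omega), fun l h2 h3 => ?_, fun l hl => h0.cf l (by omega),
    fun l h2 h3 => ?_, fun ω l hl => ?_⟩
  · obtain rfl := e1 l h2 h3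
    obtain ⟨V, z₁, z', G', h4, h5⟩ := h1.lb l (by omega)
    refine ⟨V, z₁, z', G', h4, fun s => ?_⟩
    rw [h5]
    unfold fhT
    rw [if_neg (lt_irrefl _)]
  · obtain rfl := e1 l h2 h3
    have h4 := h1.cf l (by omega)
    have e2 : (fun s => fhT H (H (f t)) (f 0) l ⌊b * J⌋₊ ⌊w * J⌋₊ s l) = fun s => H (f t) s l := by
      funext s
      unfold fhT
      rw [if_neg (lt_irrefl _)]
    rw [e2]
    exact h4
  · unfold fhT
    rw [if_pos hl, upw_slam F (Nat.floor_le_floor (mul_le_mul_of_nonneg_right hbw hJ0))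
      (Nat.floor_le_of_le (mul_le_of_le_one_left hJ0 hw1))]

end Pool.STR62
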