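import Pool.Agent.H62.STR.Nlo

/-!
# The near half of the star

`stn_of`: the top order `⌊s⌋` over the canonical labels of the window `w`, given the near jets and the
record of a window before `w + u`: one step of the star at `w`, from the far half at `w`.
-/

set_option autoImplicit false

namespace Pool.STR62

open Finset Real MvPolynomial
open Pool.Agent.H49.Ent Pool.Agent.H32.Dense Pool.STK Pool.KA Pool.KSAT Pool.K2S Pool.PB Pool.GEN
open Pool.S6C Pool.RCD Pool.LA91 Pool.AVG96 Pool.V0F Pool.V0T Pool.D2R Pool.NVT16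
open Pool.AVG57 (jet2 upw upw_slam)
open Pool.AJW (CfB)
open Pool.V0Q (LDP)
open Pool.T462 (GNs HNs)
open Pool.T4C72 (BoxT)
open Pool.TW44 (ChW ChE Lns lin_of lv_of ch_more ch_fewer p5_low p5_high CanD CheC StF StN flat_of)
open Pool.STR16 (oJ StarStmt StE OkT ImN ImU)
open Pool.NN24 (num_nearA)

/-- The canonical labels of the window `w` for the star: the charts of `b` below `k`, the labels of
`w` for both targets. -/
noncomputable def lbS {m J : ℕ} {F : Fam m J} (c : ℕ → Fin m) (k : ℕ) (X : CanD m) (f : ℕ → ℕ) (t : ℕ)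
    (b w : ℝ) : LnT F → ℕ → MvPolynomial (Option (Fin m)) ℝ :=
  fhT (X.H J F) (HNs c (X.H J F) k (f 0) (f t) ⌊b * J⌋₊ ⌊w * J⌋₊) (f 0) k ⌊b * J⌋₊ ⌊w * J⌋₊

theorem lbS_lt {m J : ℕ} {F : Fam m J} {c : ℕ → Fin m} {k : ℕ} {X : CanD m} {f : ℕ → ℕ} {t : ℕ}
    {b w : ℝ} (hbw : b ≤ w) (hw1 : w ≤ 1) (ω : F.Ω) {l : ℕ} (hl : l < k) :
    lbS c k X f t b w (slam F ⌊w * J⌋₊ ω) l = X.H J F (f 0) (slam F ⌊b * J⌋₊ ω) l := by
  have hJ0 : (0 : ℝ) ≤ J := Nat.cast_nonneg J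
  unfold lbS fhT
  rw [if_pos hl, upw_slam F (Nat.floor_le_floor (mul_le_mul_of_nonneg_right hbw hJ0))
      (Nat.floor_le_of_le (mul_le_of_le_one_left hJ0 hw1))]

theorem lbS_ge {m J : ℕ} {F : Fam m J} {c : ℕ → Fin m} {k : ℕ} {X : CanD m} {f : ℕ → ℕ} {t : ℕ}
    {b w : ℝ} (s : LnT F) {l : ℕ} (hl : k ≤ l) :
    lbS c k X f t b w s l = HNs c (X.H J F) k (f 0) (f t) ⌊b * J⌋₊ ⌊w * J⌋₊ s l := by
  unfold lbS fhT
  rw [if_neg (by omega)]

/-- The slopes of a box. -/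
theorem box_lns {m : ℕ} {S : PCl m} {c : ℕ → Fin m} {k D : ℕ} {sn sp : ℕ → ℝ → ℝ} {G : Set ℝ}
    {s h b o w u Λ φ e : ℝ} {lam : ℝ → ℝ} (B : BoxT S c k 1 D sn sp G s h b o w u Λ φ e lam) :
    Lns k sn G b o φ s (fun l => sn l w - s * w) := fun l h1 h2 v hv h3 h4 => by
  have h5 := B.lin l h1 h2 v hv h3 h4
  have e1 : sn l v - (sn l w - s * w + s * v) = sn l v - sn l w - s * (v - w) := by ring
  show |sn l v - (sn l w - s * w + s * v)| ≤ φ
  rw [e1]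
  exact h5

/-- **The near half of the star.** -/
theorem stn_of {k : ℕ} {h s : ℝ} (hs : 1 ≤ s) (hst : StarStmt k h s) (m D D₁ : ℕ) {δ : ℝ}
    (hδ : 0 < δ) : ∃ c₀ δF C : ℝ, 0 < c₀ ∧ 0 < δF ∧ 1 ≤ C ∧
    ∀ {S : PCl m} {c : ℕ → Fin m} {Db : ℕ} {sn sp : ℕ → ℝ → ℝ} {G : Set ℝ}
    {b o t U Λ φ' e φ : ℝ} {lam : ℝ → ℝ}, BoxT S c k 1 Db sn sp G s h b o t U Λ φ' e lam →
    φ' ≤ φ → 0 ≤ e → (∀ v ∈ G, ∃ η : ℝ, RNum S (fun J F => ptr F J) (vg v) η) →
    ∀ {Dr N M : ℕ} {C₀ a Eb ηm : ℝ} {ow η σ : ℕ → ℝ} {lv bb : ℕ → ℕ → ℝ} {f : ℕ → ℕ} {n : ℕ}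
    {X : CanD m}, ChW k sn G b o φ' N C₀ ηm ow lv f n →
    CheC S c k D Dr N M C₀ a Eb ηm ow η σ lv bb f n X →
    ∀ {tw : ℕ} {w u T ψ Ec R : ℝ} {e₀ : ℕ → ℝ} {ρ₀ κ room : ℝ} {w₁ : ℚ}, tw ≤ n →
    ow (f tw) = w → t ≤ w₁ → (w₁ : ℝ) ≤ w → w + u ≤ ow (f n) + φ' → 0 < u → C * φ ≤ c₀ * u →
    0 ≤ κ → κ ≤ c₀ * u → e * U ≤ c₀ * u → C * φ ≤ ψ → u + ψ ≤ T * u →
    C * (u + T * u + ψ + U) + s * (w - t) ≤ Λ * U → 2 * u ≤ R → 2 * u ≤ room →
    (∀ ϖ : ℝ, 0 < ϖ → ∀ v ∈ G, w ≤ v → v ≤ w + 2 * u → ∀ P : ℝ, P ≤ sn (k + 1) w + u →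
      ImN S c k D₁ w φ e₀ ρ₀ sn ϖ room v P κ) →
    (∀ ϖ : ℝ, 0 < ϖ → ∀ v ∈ G, w ≤ v → v ≤ w + 2 * u → ∀ P : ℝ, P ≤ sn k w + u →
      ImU S c k D₁ w φ e₀ ρ₀ sn ϖ v P κ) →
    Bas S (fun J F A => StE F c k D₁ b w φ Ec R sn A (X.H J F (f 0)) (lbS c k X f tw b w)) →
    Bas S (fun _ F A => OkT F c k D₁ w φ e₀ ρ₀ sn A (lbS c k X f tw b w)) →
    StF S c k sn X f tw s b w u T δF → StN S c k sn X f tw s b w u ψ φ' δ := by
  -- the top order
  obtain ⟨j, hj⟩ : ∃ j : ℕ, j = ⌊s⌋₊ := ⟨_, rfl⟩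
  have hjs : (j : ℝ) ≤ s := by rw [hj]; exact Nat.floor_le (by linarith)
  have hsj : s < j + 1 := by rw [hj]; exact Nat.lt_floor_add_one s
  have hj1 : 1 ≤ j := by rw [hj]; exact (Nat.one_le_floor_iff s).2 hs
  obtain ⟨κ₀, Cs, hκ₀, hCs, hstar⟩ := hst j D₁ hj1 hjs (δ / 2) (by positivity)
  choose Cl hCl hlo using fun i => near_lo m D k i
  choose Ch hCh hhi using fun i => near_hi m D k i
  obtain ⟨Cn, hCn, hnat⟩ := near_nat m D k j
  obtain ⟨Cp, hCp⟩ : ∃ Cp : ℕ, Cp = ∑ i ∈ range (D₁ + 2), (Cl i + Ch i) + Cn := ⟨_, rfl⟩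
  have hCpi : ∀ i < D₁ + 2, Cl i ≤ Cp ∧ Ch i ≤ Cp := fun i hi => by
    have h1 : Cl i + Ch i ≤ ∑ i ∈ range (D₁ + 2), (Cl i + Ch i) :=
      Finset.single_le_sum (f := fun i => Cl i + Ch i) (fun _ _ => Nat.zero_le _)
        (mem_range.2 hi)
    constructor <;> omega
  have hCpn : Cn ≤ Cp := by omega
  obtain ⟨μ, hμ⟩ : ∃ μ : ℝ, μ = min 1 (j + 1 - s) := ⟨_, rfl⟩
  have hμ0 : 0 < μ := by rw [hμ]; exact lt_min one_pos (by linarith)
  have hμ1 : μ ≤ 1 := by rw [hμ]; exact min_le_left _ _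
  have hμj : μ ≤ j + 1 - s := by rw [hμ]; exact min_le_right _ _
  have hk0 : (0 : ℝ) ≤ k := Nat.cast_nonneg k
  have hCp0 : (0 : ℝ) ≤ Cp := Nat.cast_nonneg _
  obtain ⟨c₀, hc₀⟩ : ∃ c₀ : ℝ, c₀ = min (min (κ₀ / 400) (δ / 8)) (1 / 2) := ⟨_, rfl⟩
  have hc0 : 0 < c₀ := by
    rw [hc₀]
    exact lt_min (lt_min (by positivity) (by positivity)) (by norm_num)
  have hc1 : c₀ ≤ κ₀ / 400 := by rw [hc₀]; exact (min_le_left _ _).trans (min_le_left _ _)
  have hc2 : c₀ ≤ δ / 8 := by rw [hc₀]; exact (min_le_left _ _).trans (min_le_right _ _)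
  have hc3 : c₀ ≤ 1 / 2 := by rw [hc₀]; exact min_le_right _ _
  obtain ⟨C, hC⟩ : ∃ C : ℝ, C = Cs + Cp * (s + 3) + 500 * (k : ℝ) ^ 2 + 2 / μ + 60 * (k + 1) + 60 :=
    ⟨_, rfl⟩
  have hCp3 : 0 ≤ Cp * (s + 3) := mul_nonneg hCp0 (by linarith)
  have h2μ : 0 < 2 / μ := by positivity
  have hk2 : 0 ≤ 500 * (k : ℝ) ^ 2 := by positivity
  have hCCs : Cs ≤ C := by rw [hC]; linarith
  have hCCp : Cp * (s + 3) ≤ C := by rw [hC]; linarith
  have hCk2 : 500 * (k : ℝ) ^ 2 ≤ C := by rw [hC]; linarith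
  have hCμ : 2 / μ ≤ C := by rw [hC]; linarith
  have hCk : 60 * ((k : ℝ) + 1) ≤ C := by rw [hC]; linarith
  have hC60 : 60 ≤ C := by rw [hC]; linarith
  refine ⟨c₀, κ₀ / 64, C, hc0, by positivity, by linarith, ?_⟩
  intro S c Db sn sp G b o t U Λ φ' e φ lam B hφφ he hrn Dr N M C₀ a Eb ηm ow η σ lv bb f n X hw hX
    tw w u T ψ Ec R e₀ ρ₀ κ room w₁ htw hwt htw1 hww1 hwn hu hCφ hκ0 hκ heU hCψ huψ hΛ hR hroom
    hImN hImU hStE hOk hF
  have L := B.lad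
  have hl := box_lns B
  have hφ' := L.φ0
  have hφ : 0 < φ := lt_of_lt_of_le hφ' hφφ
  have hU := B.u0
  have hs0 : 0 ≤ s := by linarith
  have hψ0 : 0 ≤ ψ := le_trans (by positivity) hCψ
  have hTu : 0 ≤ T * u := by linarith
  have htw2 : t ≤ w := htw1.trans hww1
  -- the room
  have hsw : 0 ≤ s * (w - t) := mul_nonneg hs0 (by linarith)
  have hsw' : w - t ≤ s * (w - t) := le_mul_of_one_le_left (by linarith) hs
  have hsum : 0 < u + T * u + ψ + U := by linarith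
  have hC1 : 60 * (u + T * u + ψ + U) ≤ C * (u + T * u + ψ + U) :=
    mul_le_mul_of_nonneg_right hC60 hsum.le
  have hΛ1 : 60 * (u + T * u + ψ + U) + (w - t) ≤ Λ * U := by linarith
  have hΛu : 0 < Λ * U := by linarith
  have q1 := B.bw
  have q2 := B.wo
  have q3 := B.o1
  have q4 := B.b0
  have hwo : w ≤ o := by rw [← hwt]; exact hw.oo tw htw
  have hwG : w ∈ G := by rw [← hwt]; exact hw.oG tw htw
  have hbw : b ≤ w := by linarith
  have hw0 : 0 ≤ w := by linarith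
  have hw1 : w ≤ 1 := by linarith
  -- small numbers
  have hφu' : C * φ' ≤ c₀ * u := (mul_le_mul_of_nonneg_left hφφ (by linarith)).trans hCφ
  have hc0u : c₀ * u ≤ u / 2 := by nlinarith
  have h60 : 60 * φ' ≤ u / 2 := by nlinarith
  have h60φ : 60 * φ ≤ u / 2 := by nlinarith
  -- the record
  obtain ⟨ox, hoxG, hox⟩ := L.toLadR.gap (w + u - 2 * φ') (by linarith) (by linarith)
  rw [abs_le] at hox
  obtain ⟨X', hX'⟩ : ∃ X' : ℝ, X' = ox - w := ⟨_, rfl⟩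
  have hX1 : u - 3 * φ' ≤ X' := by rw [hX']; linarith [hox.1]
  have hX2 : X' ≤ u - φ' := by rw [hX']; linarith [hox.2]
  have hX0 : 0 < X' := by linarith
  have hXu : u / 2 ≤ X' := by linarith
  have hox1 : ox ≤ 1 := by linarith
  refine ⟨ox, by linarith, by linarith, ?_⟩
  -- a window behind
  obtain ⟨x', hx'G, hx'⟩ := L.toLadR.gap (w + 2 * u - φ') (by linarith) (by linarith)
  rw [abs_le] at hx'
  obtain ⟨x₂, hx₂G, hx₂⟩ := L.toLadR.gap (w + (T * u + u)) (by linarith) (by linarith)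
  rw [abs_le] at hx₂
  -- the side digits
  obtain ⟨Nn, hNn⟩ : ∃ Nn : ℕ → ℕ → ℝ, Nn = fun (l' j' : ℕ) => sn l' w + (u + ψ) - (j' : ℝ) * w :=
    ⟨_, rfl⟩
  have hfl : ∀ l < k, ∀ v ∈ G, b ≤ v → v ≤ o → ∀ v' ∈ G, b ≤ v' → v' ≤ o →
      |(sn l v' - v') - (sn l v - v)| ≤ 2 * φ' := fun l hl' v hv h1 h2 v' hv' h1' h2' =>
    flat_of L hl' hv hv' h1 h2 h1' h2'
  have hlin : ∀ l, k ≤ l → l ≤ k + 1 → ∀ v ∈ G, b ≤ v → v ≤ o → ∀ v' ∈ G, b ≤ v' → v' ≤ o →
      |sn l v' - sn l v - s * (v' - v)| ≤ 2 * φ' := fun l h1 h2 v hv h3 h4 v' hv' h5 h6 =>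
    lin_of hl h1 h2 hv hv' h3 h4 h5 h6
  have hbG : b ∈ G := L.bG
  have htG : t ∈ G := B.wG
  have hbo : b ≤ o := L.bo
  -- the star
  have hstar' := hstar B hφφ (a := w) (x := ox) (x' := x') (X := 0) (X' := X') (Ec := Ec) (R := R)
    (e₀ := e₀) (ρ₀ := ρ₀) (κ := κ) (room := room) (N := Nn) hwG htw2 hoxG (by linarith)
    (by linarith) le_rfl hX0
    (by
      rw [sub_zero]
      have e1 : Cs * φ ≤ C * φ := mul_le_mul_of_nonneg_right hCCs hφ.le
      have e2 : κ₀ * (u / 2) ≤ κ₀ * X' := mul_le_mul_of_nonneg_left hXu hκ₀.le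
      have e3 : c₀ * u ≤ κ₀ / 400 * u := mul_le_mul_of_nonneg_right hc1 hu.le
      have e4 : 0 ≤ κ₀ * u := by positivity
      linarith)
    (by
      rw [sub_zero]
      have e2 : κ₀ * (u / 2) ≤ κ₀ * X' := mul_le_mul_of_nonneg_left hXu hκ₀.le
      have e3 : c₀ * u ≤ κ₀ / 400 * u := mul_le_mul_of_nonneg_right hc1 hu.le
      have e4 : 0 ≤ κ₀ * u := by positivity
      linarith) hκ0
    (by
      have e1 : Cs * φ ≤ C * φ := mul_le_mul_of_nonneg_right hCCs hφ.le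
      have e2 : Cs * U ≤ C * U := mul_le_mul_of_nonneg_right hCCs hU.le
      have e3 : C * (u + T * u + ψ + U) = C * (u + T * u + ψ) + C * U := by ring
      have e4 : 60 * (u + T * u + ψ) ≤ C * (u + T * u + ψ) :=
        mul_le_mul_of_nonneg_right hC60 (by linarith)
      linarith)
    (by
      have e1 : Cs * φ ≤ C * φ := mul_le_mul_of_nonneg_right hCCs hφ.le
      have e2 : Cs * U ≤ C * U := mul_le_mul_of_nonneg_right hCCs hU.le
      have e3 : C * (u + T * u + ψ + U) = C * (u + T * u + ψ) + C * U := by ring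
      have e4 : 60 * (u + T * u + ψ) ≤ C * (u + T * u + ψ) :=
        mul_le_mul_of_nonneg_right hC60 (by linarith)
      linarith)
    (by
      have e1 : Cs * φ ≤ C * φ := mul_le_mul_of_nonneg_right hCCs hφ.le
      linarith)
    (by
      have e1 : Cs * φ ≤ C * φ := mul_le_mul_of_nonneg_right hCCs hφ.le
      linarith) hx'G (by linarith) (by linarith)
    (fun l hl1 => by
      have e1 : Cs * φ ≤ C * φ := mul_le_mul_of_nonneg_right hCCs hφ.le
      have e2 := (abs_le.1 (hlin (k + l) (by omega) (by omega) w hwG hbw hwo x' hx'G (by linarith)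
        (by linarith))).1
      have e3 : x' - w ≤ s * (x' - w) := le_mul_of_one_le_left (by linarith) hs
      linarith)
    (fun l hl1 => by
      have e1 : Cs * φ ≤ C * φ := mul_le_mul_of_nonneg_right hCCs hφ.le
      have e2 := (abs_le.1 (hfl l hl1 b hbG le_rfl hbo w hwG hbw hwo)).2
      rw [hNn]
      refine ⟨?_, ?_, ?_⟩
      · show sn l w + X' + Cs * φ ≤ sn l w + (u + ψ) - ((0 : ℕ) : ℝ) * w
        push_cast
        linarith
      · show sn l w + (u + ψ) - ((0 : ℕ) : ℝ) * w ≤ sn l w + (u + ψ) - ((1 : ℕ) : ℝ) * w + w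
        push_cast
        linarith
      · show sn l w + (u + ψ) - ((1 : ℕ) : ℝ) * w + w + φ ≤ sn l b + 2 * (w - b)
        push_cast
        linarith)
    (fun ϖ hϖ v hv h1 h2 P hP => hImN ϖ hϖ v hv h1 (by linarith) P (by linarith))
    (fun ϖ hϖ v hv h1 h2 P hP => hImU ϖ hϖ v hv h1 (by linarith) P (by linarith))
    (hrn w hwG)
  rw [sub_zero] at hstar'
  -- the orders different from the top one
  obtain ⟨κ₁, hκ₁⟩ : ∃ κ₁ : ℝ, κ₁ = κ₀ * u / 8 := ⟨_, rfl⟩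
  have hκ₁0 : 0 < κ₁ := by rw [hκ₁]; positivity
  have hψX : X' + (u + ψ - X') = u + ψ := by ring
  have hs3 : 0 ≤ (s + 3) * φ' := by positivity
  have hCpφ : (Cp : ℝ) * ((s + 3) * φ') ≤ C * φ' := by
    have := mul_le_mul_of_nonneg_right hCCp hφ'.le
    linarith
  have hCi : ∀ q : ℕ, q ≤ Cp → (q : ℝ) * ((s + 3) * φ') ≤ C * φ' := fun q hq => by
    have h1 : (q : ℝ) ≤ Cp := by exact_mod_cast hq
    have := mul_le_mul_of_nonneg_right h1 hs3
    linarith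
  have hCφψ : C * φ' ≤ ψ := (mul_le_mul_of_nonneg_left hφφ (by linarith)).trans hCψ
  have hsnb : C * φ' ≤ sn (k + 1) b := by
    have := (B.room (k + 1) le_rfl).1
    linarith
  have hc0κ : c₀ * u ≤ κ₁ / 50 := by
    rw [hκ₁]
    have := mul_le_mul_of_nonneg_right hc1 hu.le
    linarith
  have hwb : 2 * (u + ψ) ≤ μ * (w - b) := by
    have e1 : 2 / μ * (u + ψ) ≤ C * (u + ψ) := mul_le_mul_of_nonneg_right hCμ (by linarith)
    have e2 : C * (u + T * u + ψ + U) = C * (u + ψ) + C * (T * u + U) := by ring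
    have e3 : 0 ≤ C * (T * u + U) := mul_nonneg (by linarith) (by linarith)
    have e4 : 2 / μ * (u + ψ) ≤ w - b := by linarith
    have e5 := mul_le_mul_of_nonneg_left e4 hμ0.le
    have e6 : μ * (2 / μ * (u + ψ)) = 2 * (u + ψ) := by field_simp
    linarith
  have hord : ∀ i < D₁ + 2, Bas S (fun J F A => i ≠ j → ∀ l, k ≤ l → l ≤ k + 1 →
      CH (Pool.Agent.H49.Ent.cond F.p A True)
        (fun ω => ⌊(2 : ℝ) ^ ((sn l w + X' - i * w) * J) * ojet F (c l) i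
          (HNs c (X.H J F) k (f 0) (f tw) ⌊b * J⌋₊ ⌊w * J⌋₊ (slam F ⌊w * J⌋₊ ω) l) ω⌋)
        (fun ω => (jet2 F c ⌊w * J⌋₊ (lbS c k X f tw b w) 0 k Nn ω,
          (cR F A ox ω, F.W ω))) ≤ κ₁ * J) := by
    intro i hi
    rcases eq_or_ne i j with rfl | hij
    · exact Bas.mono 0 hX fun J _ F A _ h => absurd rfl h
    have hCl' := hCi (Cl i) (hCpi i hi).1
    have hCh' := hCi (Ch i) (hCpi i hi).2
    have key : ∀ l, k ≤ l → l ≤ k + 1 → Bas S (fun J F A =>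
        CH (Pool.Agent.H49.Ent.cond F.p A True)
        (fun ω => ⌊(2 : ℝ) ^ ((sn l w + X' - i * w) * J) * ojet F (c l) i
          (HNs c (X.H J F) k (f 0) (f tw) ⌊b * J⌋₊ ⌊w * J⌋₊ (slam F ⌊w * J⌋₊ ω) l) ω⌋)
        (fun ω => (jet2 F c ⌊w * J⌋₊ (lbS c k X f tw b w) 0 k Nn ω,
          (cR F A ox ω, F.W ω))) ≤ κ₁ * J) := by
      intro l h1 h2
      rcases lt_or_gt_of_ne hij with h3 | h3
      · have his : (i : ℝ) ≤ s - 1 := by
          have : ((i + 1 : ℕ) : ℝ) ≤ j := by exact_mod_cast h3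
          push_cast at this
          linarith
        have h4 := hlo i (Dr := Dr) (M := M) (a := a) (Eb := Eb) (η := η) (σ := σ) (bb := bb) L hl
          his hw (hCl'.trans hsnb) (t := tw) (l := l) (w := w) (u := X') (ψ := u + ψ - X')
          (ox := ox) (ε := κ₁ / 2) htw hwt (by linarith) h1 h2 hX0 (by linarith) (by linarith)
          (by linarith) (by linarith) (by linarith) hox1 (by positivity)
        rw [hψX, ← hNn] at h4
        refine Bas.mono 0 (h4.and hX) ?_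
        rintro J - F A ⟨h5, κ', hE⟩
        have h6 := h5 hE (lbS c k X f tw b w) (fun ω l' hl' => lbS_lt hbw hw1 ω hl')
        exact h6.trans (mul_le_mul_of_nonneg_right (by linarith) (Nat.cast_nonneg J))
      · have his : s < (i : ℝ) := by
          have : ((j + 1 : ℕ) : ℝ) ≤ i := by exact_mod_cast h3
          push_cast at this
          linarith
        have his' : (j : ℝ) + 1 ≤ i := by exact_mod_cast h3
        have h4 := hhi i (Dr := Dr) (M := M) (a := a) (Eb := Eb) (η := η) (σ := σ) (bb := bb) L hl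
          hs his hw (hCh'.trans hsnb) (t := tw) (l := l) (w := w) (u := X') (ψ := u + ψ - X')
          (μ := μ) (ox := ox) (ε := κ₁) htw hwt h1 h2 hX0 (by linarith)
          (le_min hμ1 (by linarith)) (by rw [hψX]; exact hwb) (by linarith) (by linarith) hox1
          hκ₁0
        rw [hψX, ← hNn] at h4
        refine Bas.mono 0 (h4.and hX) ?_
        rintro J - F A ⟨h5, κ', hE⟩
        exact h5 hE (lbS c k X f tw b w) (fun ω l' hl' => lbS_lt hbw hw1 ω hl')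
    refine Bas.mono 0 ((key k le_rfl (Nat.le_succ k)).and (key (k + 1) (Nat.le_succ k) le_rfl)) ?_
    rintro J - F A ⟨h1, h2⟩ - l h3 h4
    rcases (show l = k ∨ l = k + 1 by omega) with rfl | rfl
    · exact h1
    · exact h2
  -- the orders above the top one, record of `w`
  have hord2 : ∀ i < D₁ + 2, Bas S (fun J F A => j < i → ∀ l, k ≤ l → l ≤ k + 1 →
      CH (Pool.Agent.H49.Ent.cond F.p A True)
        (fun ω => ⌊(2 : ℝ) ^ ((sn l w + X' - i * w) * J) * ojet F (c l) i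
          (HNs c (X.H J F) k (f 0) (f tw) ⌊b * J⌋₊ ⌊w * J⌋₊ (slam F ⌊w * J⌋₊ ω) l) ω⌋)
        (fun ω => (jet2 F c ⌊w * J⌋₊ (lbS c k X f tw b w) 0 k Nn ω,
          (cR F A w ω, F.W ω))) ≤ κ₁ * J) := by
    intro i hi
    rcases lt_or_ge j i with h3 | h3
    swap
    · exact Bas.mono 0 hX fun J _ F A _ h => absurd h (by omega)
    have hCh' := hCi (Ch i) (hCpi i hi).2
    have his : s < (i : ℝ) := by
      have : ((j + 1 : ℕ) : ℝ) ≤ i := by exact_mod_cast h3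
      push_cast at this
      linarith
    have his' : (j : ℝ) + 1 ≤ i := by exact_mod_cast h3
    have key : ∀ l, k ≤ l → l ≤ k + 1 → Bas S (fun J F A =>
        CH (Pool.Agent.H49.Ent.cond F.p A True)
        (fun ω => ⌊(2 : ℝ) ^ ((sn l w + X' - i * w) * J) * ojet F (c l) i
          (HNs c (X.H J F) k (f 0) (f tw) ⌊b * J⌋₊ ⌊w * J⌋₊ (slam F ⌊w * J⌋₊ ω) l) ω⌋)
        (fun ω => (jet2 F c ⌊w * J⌋₊ (lbS c k X f tw b w) 0 k Nn ω,
          (cR F A w ω, F.W ω))) ≤ κ₁ * J) := by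
      intro l h1 h2
      have h4 := hhi i (Dr := Dr) (M := M) (a := a) (Eb := Eb) (η := η) (σ := σ) (bb := bb) L hl
        hs his hw (hCh'.trans hsnb) (t := tw) (l := l) (w := w) (u := X') (ψ := u + ψ - X')
        (μ := μ) (ox := w) (ε := κ₁) htw hwt h1 h2 hX0 (by linarith)
        (le_min hμ1 (by linarith)) (by rw [hψX]; exact hwb) (by linarith) le_rfl hw1
        hκ₁0
      rw [hψX, ← hNn] at h4
      refine Bas.mono 0 (h4.and hX) ?_
      rintro J - F A ⟨h5, κ', hE⟩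
      exact h5 hE (lbS c k X f tw b w) (fun ω l' hl' => lbS_lt hbw hw1 ω hl')
    refine Bas.mono 0 ((key k le_rfl (Nat.le_succ k)).and (key (k + 1) (Nat.le_succ k) le_rfl)) ?_
    rintro J - F A ⟨h1, h2⟩ - l h3 h4
    rcases (show l = k ∨ l = k + 1 by omega) with rfl | rfl
    · exact h1
    · exact h2
  -- the natural digits of the top order
  have hnatB : Bas S (fun J F A => ∀ l, k ≤ l → l ≤ k + 1 →
      CH (Pool.Agent.H49.Ent.cond F.p A True)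
        (fun ω => ⌊(2 : ℝ) ^ ((sn l w - j * w) * J) * ojet F (c l) j
          (HNs c (X.H J F) k (f 0) (f tw) ⌊b * J⌋₊ ⌊w * J⌋₊ (slam F ⌊w * J⌋₊ ω) l) ω⌋)
        (fun ω => (jet2 F c ⌊w * J⌋₊ (lbS c k X f tw b w) 0 k Nn ω,
          (cR F A ox ω, F.W ω))) ≤ κ₁ * J) := by
    have hCn' := hCi Cn hCpn
    have key : ∀ l, k ≤ l → l ≤ k + 1 → Bas S (fun J F A =>
        CH (Pool.Agent.H49.Ent.cond F.p A True)
        (fun ω => ⌊(2 : ℝ) ^ ((sn l w - j * w) * J) * ojet F (c l) j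
          (HNs c (X.H J F) k (f 0) (f tw) ⌊b * J⌋₊ ⌊w * J⌋₊ (slam F ⌊w * J⌋₊ ω) l) ω⌋)
        (fun ω => (jet2 F c ⌊w * J⌋₊ (lbS c k X f tw b w) 0 k Nn ω,
          (cR F A ox ω, F.W ω))) ≤ κ₁ * J) := by
      intro l h1 h2
      have h4 := hnat (Dr := Dr) (M := M) (a := a) (Eb := Eb) (η := η) (σ := σ) (bb := bb) L hl
        hs0 hw (hCn'.trans hsnb) (t := tw) (l := l) (w := w) (ψ := u + ψ)
        (ox := ox) (ε := κ₁ / 2) htw hwt h1 h2 (by linarith) (by linarith) (by linarith)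
        (by linarith) hox1 (by positivity)
      rw [← hNn] at h4
      refine Bas.mono 0 (h4.and hX) ?_
      rintro J - F A ⟨h5, κ', hE⟩
      have h6 := h5 hE (lbS c k X f tw b w) (fun ω l' hl' => lbS_lt hbw hw1 ω hl')
      exact h6.trans (mul_le_mul_of_nonneg_right (by linarith) (Nat.cast_nonneg J))
    refine Bas.mono 0 ((key k le_rfl (Nat.le_succ k)).and (key (k + 1) (Nat.le_succ k) le_rfl)) ?_
    rintro J - F A ⟨h1, h2⟩ l h3 h4
    rcases (show l = k ∨ l = k + 1 by omega) with rfl | rfl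
    · exact h1
    · exact h2
  -- no look-ahead
  obtain ⟨Nf, hNf⟩ : ∃ Nf : ℕ → ℕ → ℝ, Nf = fun (l' j' : ℕ) => sn l' w + T * u - (j' : ℝ) * w :=
    ⟨_, rfl⟩
  have hnum := num_nearA B (w₁ := w₁) (a := w) (x := ox) (x' := x₂) (Y := T * u + 2 * φ')
    htw1 hww1 (by linarith) (by linarith) hoxG hx₂G (by linarith) (by linarith)
    (by
      have e1 : ((k : ℝ) + 1) * U ≤ C * U := mul_le_mul_of_nonneg_right (by linarith) hU.le
      have e2 : C * (u + T * u + ψ + U) = C * (u + T * u + ψ) + C * U := by ring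
      have e4 : 60 * (u + T * u + ψ) ≤ C * (u + T * u + ψ) :=
        mul_le_mul_of_nonneg_right hC60 (by linarith)
      linarith)
    (by
      have e1 : 60 * ((k : ℝ) + 1) * φ' ≤ C * φ' := mul_le_mul_of_nonneg_right hCk hφ'.le
      linarith) he (Nn := Nn) (Nf := Nf)
    (fun l hl1 => by
      have e1 := abs_le.1 (hfl l hl1 w hwG hbw hwo ox hoxG (by linarith) (by linarith))
      have e2 := abs_le.1 (hfl l hl1 w hwG hbw hwo x₂ hx₂G (by linarith) (by linarith))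
      rw [hNn]
      constructor
      · show sn l ox ≤ sn l w + (u + ψ) - ((0 : ℕ) : ℝ) * w
        push_cast
        have e3 : 60 * φ' ≤ C * φ' := mul_le_mul_of_nonneg_right hC60 hφ'.le
        linarith [e1.2]
      · show sn l w + (u + ψ) - ((0 : ℕ) : ℝ) * w ≤ sn l x₂
        push_cast
        linarith [e2.1])
    (fun l hl1 => by
      have e1 := abs_le.1 (hfl l hl1 t htG (by linarith) (by linarith) w hwG hbw hwo)
      rw [hNn]
      show sn l w + (u + ψ) - ((1 : ℕ) : ℝ) * w ≤ sn l t - t + (T * u + 2 * φ')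
      push_cast
      linarith [e1.2])
    (fun l hl1 => by
      have e2 := abs_le.1 (hfl l hl1 w hwG hbw hwo x₂ hx₂G (by linarith) (by linarith))
      rw [hNf]
      show sn l w + T * u - ((0 : ℕ) : ℝ) * w ≤ sn l x₂
      push_cast
      linarith [e2.1])
    (fun l hl1 => by
      have e1 := abs_le.1 (hfl l hl1 t htG (by linarith) (by linarith) w hwG hbw hwo)
      rw [hNf]
      show sn l w + T * u - ((1 : ℕ) : ℝ) * w ≤ sn l t - t + (T * u + 2 * φ')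
      push_cast
      linarith [e1.2])
    (hrn w hwG) (hrn ox hoxG) D 0 1 (π₀ := 1) (ε := κ₁ / 8) one_pos (by positivity)
  -- the events
  obtain ⟨J₁, hJ₁⟩ := exists_nat_ge (Real.log 5 / (κ₁ / 32))
  obtain ⟨J₂, hJ₂⟩ := exists_nat_ge (Real.log 5 / (δ * u / 8))
  refine Bas.mono (max J₁ J₂) ((((((((hstar'.and hStE).and hOk).and (Bas.all _ hord)).and
    (Bas.all _ hord2)).and hnatB).and hnum).and hF).and ((pos_bas L.pos).and hX)) ?_
  rintro J hJ F A ⟨⟨⟨⟨⟨⟨⟨⟨h1, h2⟩, h3⟩, h4⟩, h5⟩, h6⟩, h7⟩, h8⟩, hA, κ', hE⟩ Hj hHj l hkl hlk i hi1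
    hi2 hi3
  have hJ0 : (0 : ℝ) ≤ J := Nat.cast_nonneg J
  have hcl := isLaw_cond F.isLaw hA
  have h0 := hcl.nonneg
  have hl5 : 0 < Real.log 5 := Real.log_pos (by norm_num)
  have hJl : Real.log 5 ≤ κ₁ / 32 * J := by
    have h3 : (J₁ : ℝ) ≤ J := by exact_mod_cast (le_max_left _ _).trans hJ
    have h4 := hJ₁.trans h3
    rw [div_le_iff₀ (by positivity)] at h4
    linarith
  have hJl2 : Real.log 5 ≤ δ * u / 8 * J := by
    have h3 : (J₂ : ℝ) ≤ J := by exact_mod_cast (le_max_right _ _).trans hJ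
    have h4 := hJ₂.trans h3
    rw [div_le_iff₀ (by positivity)] at h4
    linarith
  obtain rfl : i = j := by
    have e1 : i < j + 1 := by
      have : (i : ℝ) < ((j + 1 : ℕ) : ℝ) := by push_cast; linarith
      exact_mod_cast this
    have e2 : j < i + 1 := by
      have : (j : ℝ) < ((i + 1 : ℕ) : ℝ) := by push_cast; linarith
      exact_mod_cast this
    omega
  obtain ⟨H, hH⟩ : ∃ H : LnT F → ℕ → MvPolynomial (Option (Fin m)) ℝ, H = lbS c k X f tw b w :=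
    ⟨_, rfl⟩
  rw [← hH] at h2 h3
  have hHlt : ∀ ω, ∀ l < k, H (slam F ⌊w * J⌋₊ ω) l = X.H J F (f 0) (slam F ⌊b * J⌋₊ ω) l :=
    fun ω l hl' => by rw [hH]; exact lbS_lt hbw hw1 ω hl'
  have hHge : ∀ s' : LnT F, ∀ l, k ≤ l → HNs c (X.H J F) k (f 0) (f tw) ⌊b * J⌋₊ ⌊w * J⌋₊ s' l =
      H s' l := fun s' l hl' => by rw [hH, lbS_ge s' hl']
  have hjet : jet2 F c ⌊w * J⌋₊ Hj 0 k (fun l' j' => sn l' w + (u + ψ) - (j' : ℝ) * w) =
      jet2 F c ⌊w * J⌋₊ H 0 k Nn := by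
    rw [← hNn]
    exact jet2_congr fun ω l hl' => by rw [hHj ω l hl', hHlt ω l hl']
  rw [hjet]
  have hXκ : κ₀ * (u / 2) ≤ κ₀ * X' := mul_le_mul_of_nonneg_left hXu hκ₀.le
  have hκX : 4 * κ₁ ≤ κ₀ * X' := by rw [hκ₁]; linarith
  have hκXJ : 4 * (κ₁ * J) ≤ κ₀ * X' * J := by
    have := mul_le_mul_of_nonneg_right hκX hJ0
    linarith
  have hκJ : 0 ≤ κ₁ * J := by positivity
  -- both targets
  have p1 : ∀ i' ≤ D₁ + 1, i' ≠ i → CH (Pool.Agent.H49.Ent.cond F.p A True)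
      (oJ c k ⌊w * J⌋₊ i' H fun l => sn (k + l) w + X' - i' * w)
      (fun ω => (jet2 F c ⌊w * J⌋₊ H 0 k Nn ω, (cR F A ox ω, F.W ω))) ≤ κ₀ * X' * J := by
    intro i' hi' hij
    refine (oj_le hcl c k _ i' H _ _ (e := κ₁ * J) fun l e1 e2 => ?_).trans (by linarith)
    have e3 := h4 i' (by omega) hij l e1 e2
    have e4 : k + (l - k) = l := by omega
    simp only [hHge _ l e1, ← hH] at e3
    simp only [e4]
    exact e3
  have p2 : ∀ i' ≤ D₁ + 1, i < i' → CH (Pool.Agent.H49.Ent.cond F.p A True)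
      (oJ c k ⌊w * J⌋₊ i' H fun l => sn (k + l) w + X' - i' * w)
      (fun ω => (jet2 F c ⌊w * J⌋₊ H 0 k Nn ω, (cR F A w ω, F.W ω))) ≤ κ₀ * X' * J := by
    intro i' hi' hij
    refine (oj_le hcl c k _ i' H _ _ (e := κ₁ * J) fun l e1 e2 => ?_).trans (by linarith)
    have e3 := h5 i' (by omega) hij l e1 e2
    have e4 : k + (l - k) = l := by omega
    simp only [hHge _ l e1, ← hH] at e3
    simp only [e4]
    exact e3
  have p3 : CH (Pool.Agent.H49.Ent.cond F.p A True)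
      (oJ c k ⌊w * J⌋₊ i H fun l => sn (k + l) w + 0 - i * w)
      (fun ω => (jet2 F c ⌊w * J⌋₊ H 0 k Nn ω, (cR F A ox ω, F.W ω))) ≤ κ₀ * X' * J := by
    refine (oj_le hcl c k _ i H _ _ (e := κ₁ * J) fun l e1 e2 => ?_).trans (by linarith)
    have e3 := h6 l e1 e2
    have e4 : k + (l - k) = l := by omega
    simp only [hHge _ l e1, ← hH] at e3
    simp only [e4, add_zero]
    exact e3
  -- the look-ahead
  obtain ⟨O, hO⟩ : ∃ O : F.Ω → Fin 2 → ℤ,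
      O = oJ c k ⌊w * J⌋₊ i H fun l => sn (k + l) w + X' - i * w := ⟨_, rfl⟩
  obtain ⟨V, hV⟩ : ∃ V : F.Ω → Fin 2 → ℤ,
      V = oJ c k ⌊w * J⌋₊ i H fun l => sn (k + l) w + 0 - i * w := ⟨_, rfl⟩
  have hldp := ldp_che hE hw htw hwt hw1
  obtain ⟨Hc, hHc⟩ : ∃ Hc : LnT F → ℕ → MvPolynomial (Option (Fin m)) ℝ,
      Hc = fhT (X.H J F) (X.H J F (f tw)) (f 0) k ⌊b * J⌋₊ ⌊w * J⌋₊ := ⟨_, rfl⟩
  rw [← hHc] at hldp
  have hjc : ∀ N' : ℕ → ℕ → ℝ, jet2 F c ⌊w * J⌋₊ Hc 0 k N' = jet2 F c ⌊w * J⌋₊ H 0 k N' :=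
    fun N' => jet2_congr fun ω l hl' => by rw [hHlt ω l hl']; exact hldp.hb ω l hl'
  have h7' := h7 _ Hc hldp A (fun _ h => h) (by linarith) (Fin 2 → ℤ) (Fin 2 → ℤ) O V
  rw [hjc Nn, hjc Nf] at h7'
  have p4 : CH (Pool.Agent.H49.Ent.cond F.p A True) (fun ω => (O ω, V ω))
      (fun ω => (cR F A w ω, (jet2 F c ⌊w * J⌋₊ H 0 k Nf ω, F.W ω))) ≤
      4 * (κ₀ / 64 * u * J + Real.log 5) := by
    have g0 : ∀ l, k ≤ l → l ≤ k + 1 → CH (Pool.Agent.H49.Ent.cond F.p A True)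
        (fun ω => ⌊(2 : ℝ) ^ ((sn l w + 2 * u - i * w) * J) * ojet F (c l) i
          (H (slam F ⌊w * J⌋₊ ω) l) ω⌋)
        (fun ω => (cR F A w ω, (jet2 F c ⌊w * J⌋₊ H 0 k Nf ω, F.W ω))) ≤ κ₀ / 64 * u * J := by
      intro l e1 e2
      have e3 := h8 H hHlt l e1 e2 i hi1 hi3
      rw [← hNf] at e3
      simp only [hHge _ l e1] at e3
      refine le_trans (CH_mono_cond h0 fun ω ν _ _ e => ?_) e3
      simp only [Prod.mk.injEq] at e ⊢
      exact ⟨e.2.1, e.1, e.2.2⟩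
    have g1 : ∀ d : ℝ, d ≤ 2 * u → CH (Pool.Agent.H49.Ent.cond F.p A True)
        (oJ c k ⌊w * J⌋₊ i H fun l => sn (k + l) w + d - i * w)
        (fun ω => (cR F A w ω, (jet2 F c ⌊w * J⌋₊ H 0 k Nf ω, F.W ω))) ≤
        2 * (κ₀ / 64 * u * J + Real.log 5) := by
      intro d hd
      refine oj_le hcl c k _ i H _ _ fun l e1 e2 => ?_
      have e4 : k + (l - k) = l := by omega
      simp only [e4]
      refine (ch_fewer hcl (fun ω => ojet F (c l) i (H (slam F ⌊w * J⌋₊ ω) l) ω) _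
        (a := (sn l w + d - i * w) * J) (b := (sn l w + 2 * u - i * w) * J)
        (mul_le_mul_of_nonneg_right (by linarith) hJ0)).trans ?_
      linarith [g0 l e1 e2]
    have g2 := CH_subadd h0 O V
      (fun ω => (cR F A w ω, (jet2 F c ⌊w * J⌋₊ H 0 k Nf ω, F.W ω)))
    have g3 := g1 X' (by linarith)
    have g4 := g1 0 (by linarith)
    rw [← hO] at g3
    rw [← hV] at g4
    linarith
  have p5 : CH (Pool.Agent.H49.Ent.cond F.p A True) O
      (fun ω => (V ω, (jet2 F c ⌊w * J⌋₊ H 0 k Nn ω, (cR F A w ω, F.W ω)))) ≤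
      CH (Pool.Agent.H49.Ent.cond F.p A True) O
      (fun ω => (V ω, (jet2 F c ⌊w * J⌋₊ H 0 k Nn ω, (cR F A ox ω, F.W ω)))) + κ₀ * X' * J := by
    have g1 : CH (Pool.Agent.H49.Ent.cond F.p A True) O
        (fun ω => (V ω, (jet2 F c ⌊w * J⌋₊ H 0 k Nn ω, (cR F A w ω, F.W ω)))) ≤
        CH (Pool.Agent.H49.Ent.cond F.p A True) O
        (fun ω => (V ω, (cR F A w ω, (jet2 F c ⌊w * J⌋₊ H 0 k Nn ω, F.W ω)))) :=
      CH_mono_cond h0 fun ω ν _ _ e => by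
        simp only [Prod.mk.injEq] at e ⊢
        exact ⟨e.1, e.2.2.1, e.2.1, e.2.2.2⟩
    have g2 : CH (Pool.Agent.H49.Ent.cond F.p A True) O
        (fun ω => (V ω, (cR F A ox ω, (jet2 F c ⌊w * J⌋₊ H 0 k Nn ω, F.W ω)))) ≤
        CH (Pool.Agent.H49.Ent.cond F.p A True) O
        (fun ω => (V ω, (jet2 F c ⌊w * J⌋₊ H 0 k Nn ω, (cR F A ox ω, F.W ω)))) :=
      CH_mono_cond h0 fun ω ν _ _ e => by
        simp only [Prod.mk.injEq] at e ⊢
        exact ⟨e.1, e.2.2.1, e.2.1, e.2.2.2⟩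
    have g3 : 4 * (κ₀ / 64 * u * J + Real.log 5) ≤ κ₁ * J := by
      have e1 : κ₀ / 64 * u * J = κ₁ / 8 * J := by rw [hκ₁]; ring
      rw [e1]
      linarith
    have g4 : (500 * (k : ℝ) ^ 2 * φ' + 25 * e * U + κ₁ / 8) * J ≤ κ₁ * J := by
      refine mul_le_mul_of_nonneg_right ?_ hJ0
      have e1 : 500 * (k : ℝ) ^ 2 * φ' ≤ C * φ' := mul_le_mul_of_nonneg_right hCk2 hφ'.le
      linarith
    linarith
  have h9 := h1 _ H h2 h3 p1 p2 p3 (by
    rw [← hO, ← hV]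
    exact p5)
  -- one target, `u` digits
  have h10 := oj_ge hcl c k ⌊w * J⌋₊ i H (fun l => sn (k + l) w + X' - i * w)
    (fun ω => (jet2 F c ⌊w * J⌋₊ H 0 k Nn ω, (cR F A ox ω, F.W ω))) hkl hlk
  have e4 : k + (l - k) = l := by omega
  simp only [e4] at h10
  simp only [hHge _ l hkl]
  have h11 := ch_more hcl (fun ω => ojet F (c l) i (H (slam F ⌊w * J⌋₊ ω) l) ω)
    (fun ω => (jet2 F c ⌊w * J⌋₊ H 0 k Nn ω, (cR F A ox ω, F.W ω)))
    (a := (sn l w + X' - i * w) * J) (b := (sn l w + u - i * w) * J)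
    (mul_le_mul_of_nonneg_right (by linarith) hJ0)
  have h12 : ((sn l w + u - i * w) * (J : ℝ) - (sn l w + X' - i * w) * J) * Real.log 2 ≤
      δ * u / 8 * J := by
    have e5 : (sn l w + u - i * w) * (J : ℝ) - (sn l w + X' - i * w) * J = (u - X') * J := by ring
    rw [e5]
    have e6 : Real.log 2 ≤ 1 := by
      have := Real.log_two_lt_d9
      linarith
    have e7 : 0 ≤ (u - X') * (J : ℝ) := mul_nonneg (by linarith) hJ0
    have e8 : (u - X') * (J : ℝ) * Real.log 2 ≤ (u - X') * J * 1 :=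
      mul_le_mul_of_nonneg_left e6 e7
    have e9 : (u - X') * (J : ℝ) ≤ δ * u / 8 * J := by
      refine mul_le_mul_of_nonneg_right ?_ hJ0
      have e10 : c₀ * u ≤ δ / 8 * u := mul_le_mul_of_nonneg_right hc2 hu.le
      have e11 : 3 * φ' ≤ C * φ' := mul_le_mul_of_nonneg_right (by linarith) hφ'.le
      linarith
    linarith
  have h13 : δ / 2 * X' * J ≤ δ / 2 * u * J :=
    mul_le_mul_of_nonneg_right (mul_le_mul_of_nonneg_left (by linarith) (by positivity)) hJ0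
  have h14 : 0 ≤ δ * u * J := by positivity
  linarith

end Pool.STR62
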